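import Pool.Agent.Q46.ND.StmE

/-!
# The inhomogeneous reduction (statement `P_EC` of `Pool.Agent.Q46.ND.StmE`)
-/

set_option autoImplicit false

open MvPolynomial

namespace Pool.Agent.Q38.ND.EC

open Pool.Agent.Q46.ND

/-- All monomials of `P` have degree less than `e`. -/
def Lt {A : Type} [CommRing A] {m : ℕ} (e : ℕ) (P : MvPolynomial (Fin m) A) : Prop :=
  ∀ α, coeff α P ≠ 0 → α.degree < e

variable {A : Type} [CommRing A] {m : ℕ}

theorem Lt.add {e : ℕ} {P Q : MvPolynomial (Fin m) A} (hP : Lt e P) (hQ : Lt e Q) :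
    Lt e (P + Q) := by
  intro α hα
  rw [coeff_add] at hα
  by_cases h : coeff α P = 0
  · rw [h, zero_add] at hα
    exact hQ α hα
  · exact hP α h

theorem Lt.sub {e : ℕ} {P Q : MvPolynomial (Fin m) A} (hP : Lt e P) (hQ : Lt e Q) :
    Lt e (P - Q) := by
  intro α hα
  rw [coeff_sub] at hα
  by_cases h : coeff α P = 0
  · rw [h, zero_sub, neg_ne_zero] at hα
    exact hQ α hα
  · exact hP α h

theorem Lt.C_mul {e : ℕ} {P : MvPolynomial (Fin m) A} (hP : Lt e P) (a : A) : Lt e (C a * P) := by
  intro α hα
  rw [coeff_C_mul] at hα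
  exact hP α (right_ne_zero_of_mul hα)

theorem Lt.sum {ι : Type} {e : ℕ} (s : Finset ι) {P : ι → MvPolynomial (Fin m) A}
    (hP : ∀ i ∈ s, Lt e (P i)) : Lt e (∑ i ∈ s, P i) := by
  classical
  induction s using Finset.induction_on with
  | empty => intro α hα; simp at hα
  | insert a s ha ih =>
    rw [Finset.sum_insert ha]
    exact (hP a (Finset.mem_insert_self _ _)).add
      (ih fun i hi => hP i (Finset.mem_insert_of_mem hi))

theorem Lt.hom_mul {a b : ℕ} {g P : MvPolynomial (Fin m) A} (hg : g.IsHomogeneous a)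
    (hP : Lt b P) : Lt (a + b) (g * P) := by
  classical
  intro α hα
  rw [coeff_mul] at hα
  obtain ⟨x, hx, h⟩ := Finset.exists_ne_zero_of_sum_ne_zero hα
  rw [Finset.HasAntidiagonal.mem_antidiagonal] at hx
  have h1 : x.1.degree = a := by
    have := hg (left_ne_zero_of_mul h)
    rwa [Finsupp.degree_eq_weight_one]
  have h2 := hP _ (right_ne_zero_of_mul h)
  rw [← hx, map_add, h1]
  omega

theorem Lt.pderiv {d : ℕ} {P : MvPolynomial (Fin m) A} (hP : Lt d P) (i : Fin m) :
    Lt (d - 1) (pderiv i P) := by
  intro α hα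
  rw [coeff_pderiv] at hα
  have h := hP _ (left_ne_zero_of_mul hα)
  rw [map_add, Finsupp.degree_single] at h
  omega

theorem t_EC : P_EC := by
  intro A _ m d hd F Φ δ hΦ hF hR
  have hLF : Lt d (F - Φ) := by
    intro α hα
    exact lt_of_le_of_lt (le_totalDegree (mem_support_iff.mpr hα)) hF
  have key : ∀ e : ℕ, ∀ G : MvPolynomial (Fin m) A, Lt e G → ∃ (N : ℕ) (c : BB m d → A),
      C (δ ^ N) * G - ∑ β, C (c β) * mon β ∈ Ideal.span (Set.range fun i => MvPolynomial.pderiv i F) := by
    intro e
    induction e with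
    | zero =>
      intro G hG
      have h0 : G = 0 := by
        ext α
        by_contra h
        exact absurd (hG α (by simpa using h)) (by omega)
      exact ⟨0, fun _ => 0, by simp [h0]⟩
    | succ e ih =>
      intro G hG
      obtain ⟨g, c, h1, h2, h3, h4⟩ := hR e (homogeneousComponent e G)
        (homogeneousComponent_isHomogeneous e G)
      have hG' : Lt e (C δ * (G - homogeneousComponent e G) -
          ∑ i, g i * MvPolynomial.pderiv i (F - Φ)) := by
        refine Lt.sub (Lt.C_mul ?_ δ) (Lt.sum _ fun i _ => ?_)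
        · intro α hα
          rw [coeff_sub, coeff_homogeneousComponent] at hα
          split_ifs at hα with h
          · simp at hα
          · rw [sub_zero] at hα
            have := hG α hα
            omega
        · by_cases he : e < d - 1
          · rw [h3 he i, zero_mul]
            intro α hα
            simp at hα
          · have := Lt.hom_mul (h2 i) (hLF.pderiv i)
            rwa [Nat.sub_add_cancel (by omega)] at this
      obtain ⟨N, c', h5⟩ := ih _ hG'
      refine ⟨N + 1, fun β => c' β + δ ^ N * c β, ?_⟩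
      have h6 : C (δ ^ (N + 1)) * G - ∑ β, C (c' β + δ ^ N * c β) * mon β =
          (C (δ ^ N) * (C δ * (G - homogeneousComponent e G) -
            ∑ i, g i * MvPolynomial.pderiv i (F - Φ)) - ∑ β, C (c' β) * mon β) +
          C (δ ^ N) * ∑ i, g i * MvPolynomial.pderiv i F := by
        have e1 : C (δ ^ (N + 1)) * G = C (δ ^ N) * (C δ * (G - homogeneousComponent e G)) +
            C (δ ^ N) * (C δ * homogeneousComponent e G) := by
          rw [pow_succ, C_mul]; ring
        have e2 : ∑ β, C (c' β + δ ^ N * c β) * (mon β : MvPolynomial (Fin m) A) =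
            ∑ β, C (c' β) * mon β + C (δ ^ N) * ∑ β, C (c β) * mon β := by
          rw [Finset.mul_sum, ← Finset.sum_add_distrib]
          refine Finset.sum_congr rfl fun β _ => ?_
          rw [C_add, C_mul]; ring
        have e3 : ∑ i, g i * MvPolynomial.pderiv i (F - Φ) =
            ∑ i, g i * MvPolynomial.pderiv i F - ∑ i, g i * MvPolynomial.pderiv i Φ := by
          rw [← Finset.sum_sub_distrib]
          refine Finset.sum_congr rfl fun i _ => ?_
          rw [map_sub]; ring
        rw [e1, e2, e3, h1]
        ring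
      rw [h6]
      refine Ideal.add_mem _ h5 (Ideal.mul_mem_left _ _ (Ideal.sum_mem _ fun i _ =>
        Ideal.mul_mem_left _ _ (Ideal.subset_span ⟨i, rfl⟩)))
  intro G
  refine key (G.totalDegree + 1) G fun α hα => ?_
  exact Nat.lt_succ_of_le (le_totalDegree (mem_support_iff.mpr hα))

end Pool.Agent.Q38.ND.EC
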