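import Pool.Agent.Q46.ND.StmE

/-!
# The multiplication matrix (statement `P_ED` of `Pool.Agent.Q46.ND.StmE`)
-/

set_option autoImplicit false

open MvPolynomial

namespace Pool.Agent.Q38.ND.ED

open Pool.Agent.Q46.ND

theorem t_ED (h : P_EC) : P_ED := by
  intro A _ m d hd F Φ δ hΦ hF hR
  have h1 := fun β : BB m d => h hd F Φ δ hΦ hF hR (F * mon β)
  choose N c hc using h1
  classical
  refine ⟨∑ β, N β, Matrix.of fun β β' => δ ^ ((∑ β, N β) - N β) * c β β', fun β => ?_⟩
  have hle : N β ≤ ∑ β, N β := Finset.single_le_sum (fun _ _ => Nat.zero_le _) (Finset.mem_univ β)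
  have h2 := Ideal.mul_mem_left _ (C (δ ^ ((∑ β, N β) - N β))) (hc β)
  have h3 : C (δ ^ (∑ β, N β)) * F * mon β -
      ∑ β', C ((Matrix.of fun β β' => δ ^ ((∑ β, N β) - N β) * c β β') β β') * mon β' =
      C (δ ^ ((∑ β, N β) - N β)) * (C (δ ^ N β) * (F * mon β) - ∑ β', C (c β β') * mon β') := by
    rw [mul_sub, Finset.mul_sum]
    congr 1
    · have : δ ^ (∑ β, N β) = δ ^ ((∑ β, N β) - N β) * δ ^ N β := by
        rw [← pow_add, Nat.sub_add_cancel hle]
      rw [this, C_mul]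
      ring
    · refine Finset.sum_congr rfl fun β' _ => ?_
      rw [Matrix.of_apply, C_mul]
      ring
  rw [h3]
  exact h2

end Pool.Agent.Q38.ND.ED
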