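import Pool.Agent.Q46.ND.StmE

/-!
# Base change of the multiplication matrix (statement `P_EE` of `Pool.Agent.Q46.ND.StmE`)
-/

set_option autoImplicit false

open MvPolynomial

namespace Pool.Agent.Q38.ND.EE

open Pool.Agent.Q46.ND

theorem map_mon {A B : Type} [CommRing A] [CommRing B] (φ : A →+* B) {m d : ℕ} (β : BB m d) :
    map φ (mon β : MvPolynomial (Fin m) A) = mon β := by
  simp [mon, map_prod]

theorem chi_eq {A : Type} [CommRing A] {m d : ℕ} (u : A) (M : Matrix (BB m d) (BB m d) A) :
    chi u M = Matrix.det ((Polynomial.X : Polynomial A) •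
      ((u • (1 : Matrix (BB m d) (BB m d) A)).map Polynomial.C) + M.map Polynomial.C) := by
  unfold chi
  congr 2
  ext1 i j
  by_cases hij : i = j
  · subst hij
    simp only [Matrix.smul_apply, Matrix.one_apply_eq, Matrix.map_apply, smul_eq_mul, mul_one]
    ring
  · simp [hij]

theorem t_EE : P_EE := by
  intro A B _ _ φ m d F u M
  refine ⟨?_, ?_, ?_, ?_, ?_⟩
  · intro h β
    have h1 := Ideal.mem_map_of_mem (map φ) (h β)
    rw [Ideal.map_span, ← Set.range_comp] at h1
    simp only [map_sub, map_mul, map_sum, map_C, map_mon] at h1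
    have h2 : ((map φ : MvPolynomial (Fin m) A →+* MvPolynomial (Fin m) B) ∘
        fun i => pderiv i F) = fun i => pderiv i (map φ F) := by
      funext i
      simp [pderiv_map]
    rw [h2] at h1
    simpa [Matrix.map_apply] using h1
  · unfold chi
    rw [← Polynomial.coe_mapRingHom, RingHom.map_det]
    congr 1
    ext1 i j
    by_cases hij : i = j
    · subst hij; simp
    · simp [hij]
  · intro c
    unfold chi
    rw [← Polynomial.coe_evalRingHom, RingHom.map_det]
    congr 1
    ext1 i j
    by_cases hij : i = j
    · subst hij; simp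
    · simp [hij]
  · rw [chi_eq]
    exact Polynomial.natDegree_det_X_add_C_le _ _
  · rw [chi_eq, Polynomial.coeff_det_X_add_C_card, Matrix.det_smul, Matrix.det_one, mul_one]

end Pool.Agent.Q38.ND.EE
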