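import Pool.Agent.Q46.ND.StmE

/-!
# Base change of the homogeneous reduction (statement `P_EE0` of `Pool.Agent.Q46.ND.StmE`)
-/

set_option autoImplicit false

open MvPolynomial

namespace Pool.Agent.Q38.ND

open Pool.Agent.Q46.ND

theorem map_mon {A B : Type} [CommRing A] [CommRing B] (φ : A →+* B) {m d : ℕ} (β : BB m d) :
    map φ (mon β : MvPolynomial (Fin m) A) = mon β := by
  simp [mon, map_prod]

theorem t_EE0 : P_EE0 := by
  intro A B _ _ φ m d Φ δ h e G hG
  have key : ∀ s : Finset (Fin m →₀ ℕ), (∀ α ∈ s, α.degree = e) → ∀ w : (Fin m →₀ ℕ) → B,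
      ∃ (g : Fin m → MvPolynomial (Fin m) B) (c : BB m d → B),
      C (φ δ) * (∑ α ∈ s, monomial α (w α)) =
        ∑ i, g i * pderiv i (map φ Φ) + ∑ β, C (c β) * mon β ∧
      (∀ i, (g i).IsHomogeneous (e - (d - 1))) ∧ (e < d - 1 → ∀ i, g i = 0) ∧
      ∀ β, ∑ i, (β i : ℕ) ≠ e → c β = 0 := by
    intro s
    classical
    induction s using Finset.induction_on with
    | empty =>
      intro _ w
      refine ⟨fun _ => 0, fun _ => 0, by simp, fun i => isHomogeneous_zero _ _ _,
        fun _ _ => rfl, fun _ _ => rfl⟩
    | insert α s hα ih =>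
      intro hs w
      obtain ⟨g1, c1, a1, a2, a3, a4⟩ := ih (fun β hβ => hs β (Finset.mem_insert_of_mem hβ)) w
      obtain ⟨g2, c2, b1, b2, b3, b4⟩ := h e (monomial α 1)
        (isHomogeneous_monomial 1 (hs α (Finset.mem_insert_self _ _)))
      refine ⟨fun i => g1 i + C (w α) * map φ (g2 i), fun β => c1 β + w α * φ (c2 β), ?_, ?_, ?_, ?_⟩
      · rw [Finset.sum_insert hα, mul_add, a1]
        have e1 := congrArg (map φ) b1
        simp only [map_mul, map_add, map_sum, map_C, map_monomial, map_one, map_mon,
          ← pderiv_map] at e1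
        have e2 : (monomial α (w α) : MvPolynomial (Fin m) B) = C (w α) * monomial α 1 := by
          rw [C_mul_monomial, mul_one]
        have e3 : C (φ δ) * (C (w α) * monomial α (1 : B)) =
            C (w α) * (C (φ δ) * monomial α 1) := by ring
        rw [e2, e3, e1]
        simp only [add_mul, Finset.sum_add_distrib, mul_add, Finset.mul_sum, C_add, C_mul,
          mul_assoc]
        abel
      · intro i
        have := (isHomogeneous_C (Fin m) (w α)).mul ((b2 i).map φ)
        rw [zero_add] at this
        exact (a2 i).add this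
      · intro he i
        simp [a3 he i, b3 he i]
      · intro β hβ
        simp [a4 β hβ, b4 β hβ]
  have h2 := key G.support (fun α hα => by
    have := hG (mem_support_iff.mp hα)
    rwa [Finsupp.degree_eq_weight_one]) (fun α => coeff α G)
  rw [← G.as_sum] at h2
  exact h2

end Pool.Agent.Q38.ND
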